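import Pool.Agent.H68.LCS.Targets

/-!
# lpq_modules A_CSM: the set of the canonical points
-/

set_option autoImplicit false

open Set Filter Topology
open scoped Pointwise

namespace Pool.Agent.H55.LCS

open Pool.Agent.H93.CP Pool.Agent.H7.LP Pool.Agent.H7.LQ Pool.Agent.H68.LCS

theorem csm_key (h1 : T_LCO) {Γ F : Type} [Group Γ] [TopologicalSpace Γ] [IsTopologicalGroup Γ]
    [PolishSpace Γ] [TopologicalSpace F] [T3Space F] [MulAction Γ F] [ContinuousSMul Γ F]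
    (D : LCd Γ F) (B : Bf F) (t : ℕ) (γ : Γ) (y : F) (hy : γ • y ∈ YY D B t) :
    ∃ i, TopologicalSpace.denseSeq Γ i • y ∈ YY D B t ∧
      ss D B t (TopologicalSpace.denseSeq Γ i • y) = ss D B t (γ • y) := by
  obtain ⟨-, -, O, hO, hOy⟩ := h1 Γ F D B t (γ • y) hy
  have hn : {a : Γ | a * γ⁻¹ ∈ O} ∈ 𝓝 γ := by
    have hc : Tendsto (fun a : Γ => a * γ⁻¹) (𝓝 γ) (𝓝 (γ * γ⁻¹)) :=
      (continuous_mul_const γ⁻¹).tendsto γ
    rw [mul_inv_cancel] at hc
    exact hc hO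
  obtain ⟨V, hVs, hVo, hV⟩ := mem_nhds_iff.1 hn
  obtain ⟨i, hi⟩ := (TopologicalSpace.denseRange_denseSeq Γ).exists_mem_open hVo ⟨γ, hV⟩
  have h2 := hOy _ (hVs hi)
  rw [smul_smul, inv_mul_cancel_right] at h2
  exact ⟨i, h2⟩

theorem pf_CSM (h1 : T_LCO) (h2 : T_YEX) (h3 : T_YME) (h4 : T_SME) : T_CSM := by
  intro Γ F _ _ _ _ _ _ _ _ _ _ _ D B
  refine ⟨?_, ?_, TopologicalSpace.denseSeq Γ, ?_, ?_⟩
  · have e : CanS D B = ⋃ t : ℕ, ⋃ i : ℕ, {z : F | TopologicalSpace.denseSeq Γ i • z ∈ YY D B t ∧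
        ss D B t (TopologicalSpace.denseSeq Γ i • z) = z} := by
      ext z
      simp only [mem_iUnion]
      constructor
      · rintro ⟨t, γ, hγ, hz⟩
        obtain ⟨i, hi, hi2⟩ := csm_key h1 D B t γ z hγ
        exact ⟨t, i, hi, hi2.trans hz⟩
      · rintro ⟨t, i, hi, hi2⟩
        exact ⟨t, _, hi, hi2⟩
    rw [e]
    refine MeasurableSet.iUnion fun t => MeasurableSet.iUnion fun i => ?_
    have hm : Measurable fun z : F => TopologicalSpace.denseSeq Γ i • z :=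
      (continuous_const_smul _).measurable
    have hs : Measurable fun z : F => (ss D B t (TopologicalSpace.denseSeq Γ i • z), z) :=
      ((h4 Γ F D B t).comp hm).prodMk measurable_id
    exact (hm (h3 Γ F D B t)).inter (hs (isClosed_diagonal.measurableSet))
  · intro t γ y hy
    obtain ⟨-, ⟨γ', hγ'⟩, -⟩ := h1 Γ F D B t (γ • y) hy
    refine ⟨t, γ'⁻¹, ?_, ?_⟩
    · rw [hγ', inv_smul_smul]
      exact hy
    · conv_lhs => rw [hγ', inv_smul_smul]
  · intro y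
    obtain ⟨t, ht⟩ := h2 Γ F D B y
    obtain ⟨i, hi, -⟩ := csm_key h1 D B t 1 y (by rwa [one_smul])
    exact ⟨t, i, hi⟩
  · rintro y γ ⟨t, a, ha, ha2⟩
    rw [smul_smul] at ha
    obtain ⟨i, hi, hi2⟩ := csm_key h1 D B t (a * γ) y ha
    refine ⟨t, i, hi, ?_⟩
    rw [hi2, mul_smul, ha2]

end Pool.Agent.H55.LCS
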