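import Pool.Agent.H68.LCS.Targets

/-!
# lpq_modules A_FLB: the labels are in the space
-/

set_option autoImplicit false

open Set Filter Topology
open scoped Pointwise

namespace Pool.Agent.H55.LCS

open Pool.Agent.H93.CP Pool.Agent.H7.LP Pool.Agent.H7.LQ Pool.Agent.H68.LCS

theorem pf_FLB : T_FLB := by
  intro G _ _ _ R
  have h3 : ∀ (c : ℕ → Set G) (n : ℕ), ∀ a ∈ lab R c n, ∀ r ∈ R, a * r ∈ lab R c n := by
    intro c n a ha r hr
    refine map_mem_closure (f := fun x : G => x * r) (continuous_mul_const r) ha ?_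
    rintro b ⟨r', hr', hb⟩
    refine ⟨r⁻¹ * r', R.mul_mem (R.inv_mem hr) hr', ?_⟩
    have h : b * r * (r⁻¹ * r') = b * r' := by group
    rw [h]
    exact hb
  refine ⟨fun y _ hy n a ha r hr => ?_, fun c n => isClosed_closure, h3⟩
  rw [← congrFun hy n] at ha ⊢
  exact h3 y n a ha r hr

end Pool.Agent.H55.LCS
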