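import Pool.Agent.H68.LCS.Targets

/-!
# lpq_modules A_YME: the set YY is Borel
-/

set_option autoImplicit false

open Set Filter Topology
open scoped Pointwise

namespace Pool.Agent.H55.LCS

open Pool.Agent.H93.CP Pool.Agent.H7.LP Pool.Agent.H7.LQ Pool.Agent.H68.LCS

theorem yme_C {Γ F : Type} [Group Γ] [TopologicalSpace Γ] [IsTopologicalGroup Γ] [MulAction Γ F]
    (D : LCd Γ F) : IsCompact D.C :=
  ((D.cpt 0).union (D.cpt 0).inv).union isCompact_singleton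

theorem pf_YME (h1 : T_PRJ) (h2 : T_FSG) (_h3 : T_KCP) : T_YME := by
  intro Γ F _ _ _ _ _ _ _ _ _ _ _ D B t
  obtain ⟨f1, f2, f3, f4, f5⟩ := h2
  have hC : IsCompact D.C := yme_C D
  have hCC : IsCompact (D.C * D.C * D.C) := (hC.mul hC).mul hC
  -- the closed relation
  have hE3 : IsClosed {a : F × Γ × Γ | ∃ c ∈ D.C, (a, c) ∈
      {b : (F × Γ × Γ) × Γ | b.1.2.2 • b.1.2.1 • b.1.1 = b.2 • b.1.2.1 • b.1.1}} := by
    refine h1 (F × Γ × Γ) Γ D.C _ hC (isClosed_eq ?_ ?_) <;> fun_prop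
  have hE2 : FS ({a : (F × Γ) × Γ | a.2 • a.1.2 • a.1.1 ∈ closure (B.U t)} ∩
      {a : (F × Γ) × Γ | ∃ c ∈ D.C, a.2 • a.1.2 • a.1.1 = c • a.1.2 • a.1.1}ᶜ) := by
    refine (f2 _ _ _ (f1 _ _ ?_) (f3 _ _ (IsClosed.isOpen_compl (self := ?_)))).2
    · exact isClosed_closure.preimage (f := fun a : (F × Γ) × Γ => a.2 • a.1.2 • a.1.1)
        (by fun_prop)
    · exact hE3.preimage (f := fun a : (F × Γ) × Γ => (a.1.1, a.1.2, a.2)) (by fun_prop)
  have hE : FS {a : F × Γ | a.2 • a.1 ∉ XX D B t} := by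
    have e : {a : F × Γ | a.2 • a.1 ∉ XX D B t} = {a : F × Γ | a.2 • a.1 ∉ B.U t} ∪
        {a : F × Γ | ∃ h ∈ D.C * D.C * D.C, (a, h) ∈
          ({a : (F × Γ) × Γ | a.2 • a.1.2 • a.1.1 ∈ closure (B.U t)} ∩
          {a : (F × Γ) × Γ | ∃ c ∈ D.C, a.2 • a.1.2 • a.1.1 = c • a.1.2 • a.1.1}ᶜ)} := by
      ext a
      constructor
      · intro h
        by_cases hu : a.2 • a.1 ∈ B.U t
        · right
          have h4 : ¬ ∀ h ∈ D.C * D.C * D.C, h • a.2 • a.1 ∈ closure (B.U t) →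
              ∃ c ∈ D.C, h • a.2 • a.1 = c • a.2 • a.1 := fun h5 => h ⟨hu, h5⟩
          push Not at h4
          obtain ⟨g, hg, hg1, hg2⟩ := h4
          refine ⟨g, hg, hg1, ?_⟩
          rintro ⟨c, hc, hc2⟩
          exact hg2 c hc hc2
        · left
          exact hu
      · rintro (h | ⟨g, hg, hg1, hg2⟩) hx
        · exact h hx.1
        · exact hg2 (hx.2 g hg hg1)
    rw [e]
    refine (f2 _ _ _ (f1 _ _ ?_) (f5 _ _ _ _ hCC hE2)).1
    have : {a : F × Γ | a.2 • a.1 ∉ B.U t} = (fun a : F × Γ => a.2 • a.1) ⁻¹' (B.U t)ᶜ := rfl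
    rw [this]
    exact (B.opn t).isClosed_compl.preimage (by fun_prop)
  have e : YY D B t = ⋃ p, {y : F | ∃ g ∈ D.N p, (y, g) ∈ {a : F × Γ | a.2 • a.1 ∉ XX D B t}}ᶜ := by
    ext y
    rw [mem_iUnion]
    constructor
    · rintro ⟨p, hp⟩
      refine ⟨p, ?_⟩
      rintro ⟨g, hg, hg2⟩
      exact hg2 (hp g hg)
    · rintro ⟨p, hp⟩
      refine ⟨p, fun g hg => ?_⟩
      by_contra h
      exact hp ⟨g, hg, h⟩
  rw [e]
  exact MeasurableSet.iUnion fun p => (f4 _ _ (f5 _ _ _ _ (D.cpt p) hE)).compl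

end Pool.Agent.H55.LCS
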